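import Pool.Agent.P.MP_8c536d_lc.XA.Fin

namespace Pool.Agent.Results.MP_8c536d_lc.ExpApprox

open Pool.Agent.P.MP_8c536d_lc

/-- For every `δ > 0`, Vertex Bisection has an FPT approximation with ratio
`1 + C * 2 ^ (δ * k)`. -/
theorem result (δ : ℝ) (hδ : 0 < δ) :
    ∃ C : ℝ, SolvableFPT [] fun n G k => ApproxAnswer (C * 2 ^ (δ * k)) n G k :=
  XA.mainX δ hδ

end Pool.Agent.Results.MP_8c536d_lc.ExpApprox
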