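import Pool.Agent.P.MP_8c536d_lc.SpMain

namespace Pool.Agent.Results.MP_8c536d_lc.SuperPoly

open Pool.Agent.P.MP_8c536d_lc

/-- An FPT `(1 + ε k)`-approximation of Vertex Bisection tells graphs with a `k`-clique from
graphs without a clique of size `k / 2`, with the exponent `k / 2 ^ s` times the square of the
logarithm of `ε (10 s 2 ^ s)`, where `s` is the square root of `log k / 10`. -/
theorem result (ε : ℕ → ℝ) (w : List Bool)
    (h : SolvableFPT w fun n G k => ApproxAnswer (ε k) n G k) :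
    SolvableExp (fun k => (k / 2 ^ Nat.sqrt (Nat.log 2 k / 10) + 1) *
      (Nat.clog 2 (⌈ε (10 * Nat.sqrt (Nat.log 2 k / 10) * 2 ^ Nat.sqrt (Nat.log 2 k / 10))⌉₊ + 1)
        + 1) ^ 2) GapCliqueAnswer :=
  mainS' ε w h

end Pool.Agent.Results.MP_8c536d_lc.SuperPoly
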