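import Pool.Agent.P.MP_8c536d_lc.RtMain

namespace Pool.Agent.Results.MP_8c536d_lc.TradeOff

open Pool.Agent.P.MP_8c536d_lc

/-- An FPT `(1 + ε k)`-approximation of Vertex Bisection, for an arbitrary function `ε` of the
parameter, decides `k`-Clique with an exponent linear in `ε (16 k ^ 2)`. -/
theorem result (ε : ℕ → ℝ) (w : List Bool)
    (h : SolvableFPT w fun n G k => ApproxAnswer (ε k) n G k) :
    SolvableExp (fun k => ⌈ε (16 * k ^ 2)⌉₊ + 1) CliqueAnswer :=
  mainH ε w h

end Pool.Agent.Results.MP_8c536d_lc.TradeOff
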